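import Mathlib

/-!
# Inner functions and radial limits: definitions
-/

open Filter Topology Metric

namespace Pool.Agent.InnerSeries

/-- `L` is the radial limit of `h` at `ζ`: `h (r ζ) → L` as `r → 1-`. -/
def RadialLimit (h : ℂ → ℂ) (ζ L : ℂ) : Prop :=
  Tendsto (fun r : ℝ => h (r * ζ)) (𝓝[<] 1) (𝓝 L)

/-- `f` is an inner function: it is analytic in the unit disc, maps the disc to itself, and has
a radial limit of modulus one at `exp (i θ)` for almost every `θ`. -/
def IsInner (f : ℂ → ℂ) : Prop :=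
  DifferentiableOn ℂ f (ball 0 1) ∧ (∀ z, ‖z‖ < 1 → ‖f z‖ < 1) ∧
    ∀ᵐ θ : ℝ, ∃ L : ℂ, ‖L‖ = 1 ∧ RadialLimit f (Complex.exp (θ * Complex.I)) L

end Pool.Agent.InnerSeries
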