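import Mathlib

open Filter Topology Complex Metric Set

namespace Pool.Agent.InnerSeries

noncomputable section

open scoped ZeroAtInfty

lemma c0_norm_le {A : C₀(ℕ, ℂ)} {c : ℝ} (hc : 0 ≤ c) (h : ∀ k, ‖A k‖ ≤ c) : ‖A‖ ≤ c := by
  rw [← ZeroAtInftyContinuousMap.norm_toBCF_eq_norm]
  exact (BoundedContinuousFunction.norm_le hc).2 h

lemma c0_coe_le (A : C₀(ℕ, ℂ)) (k : ℕ) : ‖A k‖ ≤ ‖A‖ := by
  rw [← ZeroAtInftyContinuousMap.norm_toBCF_eq_norm]
  exact A.toBCF.norm_coe_le_norm k

lemma c0_summable (A : C₀(ℕ, ℂ)) {d : ℕ → ℂ} (hd : Summable fun k => ‖d k‖) :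
    Summable fun k => A k * d k := by
  refine Summable.of_norm_bounded (g := fun k => ‖A‖ * ‖d k‖) (hd.mul_left _) fun k => ?_
  rw [norm_mul]
  exact mul_le_mul_of_nonneg_right (c0_coe_le A k) (norm_nonneg _)

/-- the functional `A ↦ ∑ A_k d_k` -/
def functional (d : ℕ → ℂ) (hd : Summable fun k => ‖d k‖) : C₀(ℕ, ℂ) →L[ℂ] ℂ :=
  LinearMap.mkContinuous
    { toFun := fun A => ∑' k, A k * d k
      map_add' := fun A B => by
        rw [← (c0_summable A hd).tsum_add (c0_summable B hd)]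
        refine tsum_congr fun k => ?_
        rw [ZeroAtInftyContinuousMap.add_apply]; ring
      map_smul' := fun c A => by
        rw [RingHom.id_apply, smul_eq_mul, ← tsum_mul_left]
        refine tsum_congr fun k => ?_
        rw [ZeroAtInftyContinuousMap.smul_apply, smul_eq_mul]; ring }
    (∑' k, ‖d k‖) (fun A => by
      refine (norm_tsum_le_tsum_norm (c0_summable A hd).norm).trans ?_
      rw [mul_comm, ← tsum_mul_left]
      refine Summable.tsum_le_tsum (fun k => ?_) (c0_summable A hd).norm (hd.mul_left _)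
      rw [norm_mul]
      exact mul_le_mul_of_nonneg_right (c0_coe_le A k) (norm_nonneg _))

lemma functional_apply (d : ℕ → ℂ) (hd : Summable fun k => ‖d k‖) (A : C₀(ℕ, ℂ)) :
    functional d hd A = ∑' k, A k * d k := rfl

/-- a finitely supported sequence -/
def finSeq (K : ℕ) (v : ℕ → ℂ) : C₀(ℕ, ℂ) where
  toFun := fun k => if k < K then v k else 0
  continuous_toFun := continuous_of_discreteTopology
  zero_at_infty' := by
    rw [cocompact_eq_cofinite, Nat.cofinite_eq_atTop]
    refine tendsto_const_nhds.congr' ?_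
    filter_upwards [eventually_ge_atTop K] with k hk
    rw [if_neg (not_lt.2 hk)]

lemma finSeq_apply (K : ℕ) (v : ℕ → ℂ) (k : ℕ) : finSeq K v k = if k < K then v k else 0 := rfl

/-- Banach-Steinhaus -/
lemma exists_null_seq (d : ℕ → ℕ → ℂ) (hd : ∀ j, Summable fun k => ‖d j k‖)
    (hV : ∀ j : ℕ, ∃ K : ℕ, (j : ℝ) ≤ ∑ k ∈ Finset.range K, ‖d j k‖) :
    ∃ A : ℕ → ℂ, Tendsto A atTop (𝓝 0) ∧ ∀ C : ℝ, ∃ j, C < ‖∑' k, A k * d j k‖ := by
  by_contra hcon
  push Not at hcon
  obtain ⟨C', hC'⟩ := banach_steinhaus (g := fun j => functional (d j) (hd j)) (fun A => by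
    have hA : Tendsto (A : ℕ → ℂ) atTop (𝓝 0) := by
      have := A.zero_at_infty'
      rwa [cocompact_eq_cofinite, Nat.cofinite_eq_atTop] at this
    obtain ⟨C, hC⟩ := hcon A hA
    exact ⟨C, hC⟩)
  obtain ⟨j, hj⟩ := exists_nat_gt C'
  obtain ⟨K, hK⟩ := hV j
  set v : ℕ → ℂ := fun k => (starRingEnd ℂ) (d j k) / ‖d j k‖ with hv
  have hv1 : ∀ k, ‖v k‖ ≤ 1 := by
    intro k
    simp only [hv]
    rw [norm_div, RCLike.norm_conj, Complex.norm_real, norm_norm]
    exact div_self_le_one _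
  have hv2 : ∀ k, v k * d j k = ((‖d j k‖ : ℝ) : ℂ) := by
    intro k
    simp only [hv]
    by_cases h : d j k = 0
    · rw [h]; simp
    · have h1 : ((‖d j k‖ : ℝ) : ℂ) ≠ 0 := by
        rw [Ne, Complex.ofReal_eq_zero, norm_eq_zero]; exact h
      rw [div_mul_eq_mul_div, div_eq_iff h1, mul_comm, Complex.mul_conj,
        Complex.normSq_eq_norm_sq]
      push_cast
      ring
  have hnorm : ‖finSeq K v‖ ≤ 1 := by
    refine c0_norm_le zero_le_one fun k => ?_
    rw [finSeq_apply]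
    split_ifs
    · exact hv1 k
    · simp
  have hval : functional (d j) (hd j) (finSeq K v) = ((∑ k ∈ Finset.range K, ‖d j k‖ : ℝ) : ℂ) := by
    rw [functional_apply, tsum_eq_sum (s := Finset.range K)]
    · push_cast
      refine Finset.sum_congr rfl fun k hk => ?_
      rw [finSeq_apply, if_pos (Finset.mem_range.1 hk), hv2]
    · intro k hk
      rw [finSeq_apply, if_neg (fun h => hk (Finset.mem_range.2 h)), zero_mul]
  have h1 := (functional (d j) (hd j)).le_opNorm (finSeq K v)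
  rw [hval, Complex.norm_real, Real.norm_eq_abs, abs_of_nonneg (Finset.sum_nonneg fun _ _ =>
    norm_nonneg _)] at h1
  have h2 := hC' j
  have h3 := norm_nonneg (functional (d j) (hd j))
  have h4 : ‖functional (d j) (hd j)‖ * ‖finSeq K v‖ ≤ ‖functional (d j) (hd j)‖ * 1 := by gcongr
  linarith

end

end Pool.Agent.InnerSeries
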