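import Pool.Agent.InnerSeries.HalfPlane
import Pool.Agent.InnerSeries.Functional

open Filter Topology Complex Metric Set

namespace Pool.Agent.InnerSeries

noncomputable section

/-! ### the Cayley transform -/

/-- inverse of the Cayley transform -/
def invCay (w : ℂ) : ℂ := I * (1 + w) / (1 - w)

lemma one_sub_ne {w : ℂ} (hw : ‖w‖ < 1) : (1 : ℂ) - w ≠ 0 := by
  intro h
  have : w = 1 := (sub_eq_zero.1 h).symm
  rw [this, norm_one] at hw
  exact lt_irrefl _ hw

lemma invCay_im_pos {w : ℂ} (hw : ‖w‖ < 1) : 0 < (invCay w).im := by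
  have h1 := one_sub_ne hw
  have h2 : 0 < normSq (1 - w) := normSq_pos.2 h1
  have h3 : ‖w‖ ^ 2 < 1 := by nlinarith [norm_nonneg w]
  rw [Complex.sq_norm, normSq_apply] at h3
  unfold invCay
  rw [Complex.div_im]
  simp only [Complex.mul_re, Complex.mul_im, Complex.I_re, Complex.I_im, Complex.add_re,
    Complex.add_im, Complex.one_re, Complex.one_im, Complex.sub_re, Complex.sub_im]
  rw [← sub_div]
  apply div_pos _ h2
  nlinarith

lemma add_I_ne {z : ℂ} (hz : 0 ≤ z.im) : z + I ≠ 0 := by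
  intro h
  have := congrArg Complex.im h
  simp at this
  linarith

lemma norm_cay_lt {z : ℂ} (hz : 0 < z.im) : ‖cay z‖ < 1 := by
  unfold cay
  have h1 := add_I_ne hz.le
  rw [norm_div, div_lt_one (norm_pos_iff.2 h1)]
  apply lt_of_pow_lt_pow_left₀ 2 (norm_nonneg _)
  rw [Complex.sq_norm, Complex.sq_norm, normSq_apply, normSq_apply]
  simp
  nlinarith

lemma cay_invCay {w : ℂ} (hw : w ≠ 1) : cay (invCay w) = w := by
  have h1 : (1 : ℂ) - w ≠ 0 := sub_ne_zero.2 (Ne.symm hw)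
  unfold cay invCay
  have h2 : I * (1 + w) / (1 - w) + I = 2 * I / (1 - w) := by field_simp; ring
  have h3 : I * (1 + w) / (1 - w) - I = 2 * I * w / (1 - w) := by field_simp; ring
  rw [h2, h3]
  have := I_ne_zero
  field_simp

lemma invCay_cay {z : ℂ} (hz : z + I ≠ 0) : invCay (cay z) = z := by
  unfold cay invCay
  have h2 : 1 + (z - I) / (z + I) = 2 * z / (z + I) := by field_simp; ring
  have h3 : 1 - (z - I) / (z + I) = 2 * I / (z + I) := by field_simp; ring
  rw [h2, h3]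
  have := I_ne_zero
  field_simp

lemma cay_ne_one (z : ℂ) (hz : z + I ≠ 0) : cay z ≠ 1 := by
  intro h
  unfold cay at h
  rw [div_eq_one_iff_eq hz] at h
  have h1 : (2 : ℂ) * I = 0 := by linear_combination -h
  have := I_ne_zero
  simp at h1

lemma norm_cay_ofReal (x : ℝ) : ‖cay x‖ = 1 := by
  unfold cay
  have h1 := ofReal_add_I_ne x
  rw [norm_div, div_eq_one_iff_eq (norm_ne_zero_iff.2 h1)]
  have : ‖(x : ℂ) - I‖ ^ 2 = ‖(x : ℂ) + I‖ ^ 2 := by
    rw [Complex.sq_norm, Complex.sq_norm, normSq_apply, normSq_apply]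
    simp
  exact (sq_eq_sq₀ (norm_nonneg _) (norm_nonneg _)).1 this

lemma exists_real {ζ : ℂ} (h1 : ‖ζ‖ = 1) (hne : ζ ≠ 1) : ∃ x : ℝ, cay x = ζ := by
  refine ⟨(invCay ζ).re, ?_⟩
  have him : (invCay ζ).im = 0 := by
    have h2 : (1 : ℂ) - ζ ≠ 0 := sub_ne_zero.2 (Ne.symm hne)
    have h3 : 0 < normSq (1 - ζ) := normSq_pos.2 h2
    have h4 : ζ.re * ζ.re + ζ.im * ζ.im = 1 := by
      rw [← normSq_apply, ← Complex.sq_norm, h1, one_pow]
    unfold invCay
    rw [Complex.div_im]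
    simp only [Complex.mul_re, Complex.mul_im, Complex.I_re, Complex.I_im, Complex.add_re,
      Complex.add_im, Complex.one_re, Complex.one_im, Complex.sub_re, Complex.sub_im]
    rw [← sub_div, div_eq_zero_iff]
    left
    nlinarith
  have h5 : ((invCay ζ).re : ℂ) = invCay ζ := by
    apply Complex.ext
    · simp
    · simp [him]
  rw [h5, cay_invCay hne]

lemma differentiableAt_cay {z : ℂ} (h : z + I ≠ 0) : DifferentiableAt ℂ cay z := by
  unfold cay
  exact DifferentiableAt.div (by fun_prop) (by fun_prop) h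

lemma differentiableAt_invCay {w : ℂ} (h : w ≠ 1) : DifferentiableAt ℂ invCay w := by
  unfold invCay
  exact DifferentiableAt.div (by fun_prop) (by fun_prop) (sub_ne_zero.2 (Ne.symm h))

/-! ### the inner function -/

/-- the inner function -/
def ff (w : ℂ) : ℂ := cay (phi (invCay w))

lemma ff_zero : ff 0 = 0 := by
  have : invCay 0 = I := by unfold invCay; simp
  unfold ff
  rw [this, phi_I]
  unfold cay
  simp

lemma norm_ff_lt {w : ℂ} (hw : ‖w‖ < 1) : ‖ff w‖ < 1 := norm_cay_lt (phi_im_pos (invCay_im_pos hw))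

lemma ne_one {w : ℂ} (hw : ‖w‖ < 1) : w ≠ 1 := fun h => by
  rw [h, norm_one] at hw
  exact lt_irrefl _ hw

lemma differentiableAt_ff {w : ℂ} (hw : ‖w‖ < 1) : DifferentiableAt ℂ ff w := by
  have h1 := invCay_im_pos hw
  have h2 : DifferentiableAt ℂ (fun w => phi (invCay w)) w :=
    DifferentiableAt.comp w (differentiableAt_phi (NP_of_im h1)) (differentiableAt_invCay (ne_one hw))
  exact DifferentiableAt.comp w (differentiableAt_cay (add_I_ne (phi_im_pos h1).le)) h2

lemma ff_iter {w : ℂ} (hw : ‖w‖ < 1) (n : ℕ) : ff^[n] w = cay (phi^[n] (invCay w)) := by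
  induction n with
  | zero => exact (cay_invCay (ne_one hw)).symm
  | succ n ih =>
    rw [Function.iterate_succ_apply', ih, Function.iterate_succ_apply']
    unfold ff
    rw [invCay_cay (add_I_ne (iter_im_pos (invCay_im_pos hw) n).le)]

lemma norm_ff_iter_lt {w : ℂ} (hw : ‖w‖ < 1) (n : ℕ) : ‖ff^[n] w‖ < 1 := by
  induction n with
  | zero => exact hw
  | succ n ih => rw [Function.iterate_succ_apply']; exact norm_ff_lt ih

lemma radialLimit_ff {x : ℝ} (h : NP (x : ℂ)) : RadialLimit ff (cay x) (cay (psi x : ℝ)) := by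
  have hx := ofReal_add_I_ne x
  have h1 : ContinuousAt ff (cay x) := by
    unfold ff
    have e := invCay_cay hx
    refine ContinuousAt.comp (g := cay) ?_ (ContinuousAt.comp (g := phi) ?_
      (differentiableAt_invCay (cay_ne_one _ hx)).continuousAt)
    · rw [e, phi_ofReal]
      exact (differentiableAt_cay (ofReal_add_I_ne _)).continuousAt
    · rw [e]
      exact (differentiableAt_phi h).continuousAt
  have h2 : ff (cay x) = cay (psi x : ℝ) := by
    unfold ff
    rw [invCay_cay hx, phi_ofReal]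
  unfold RadialLimit
  rw [← h2]
  refine h1.tendsto.comp ?_
  have h3 : Tendsto (fun r : ℝ => (r : ℂ) * cay x) (𝓝 1) (𝓝 (((1 : ℝ) : ℂ) * cay x)) :=
    Continuous.tendsto (by fun_prop) 1
  rw [Complex.ofReal_one, one_mul] at h3
  exact h3.mono_left nhdsWithin_le_nhds

lemma countable_exp (v : ℂ) : {θ : ℝ | Complex.exp (θ * I) = v}.Countable := by
  by_cases hv : ∃ θ0 : ℝ, Complex.exp (θ0 * I) = v
  · obtain ⟨θ0, h0⟩ := hv
    refine (countable_range fun k : ℤ => θ0 + k * (2 * Real.pi)).mono ?_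
    intro θ hθ
    have h1 : Complex.exp (θ * I) = Complex.exp (θ0 * I) := by rw [h0]; exact hθ
    rw [Complex.exp_eq_exp_iff_exists_int] at h1
    obtain ⟨k, hk⟩ := h1
    refine ⟨k, ?_⟩
    have h2 := congrArg Complex.im hk
    simp at h2
    simp only
    linarith
  · rw [not_exists] at hv
    have : {θ : ℝ | Complex.exp (θ * I) = v} = ∅ := by
      ext θ
      simp only [mem_ofPred_eq, mem_empty_iff_false, iff_false]
      exact hv θ
    rw [this]
    exact countable_empty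

theorem isInner_ff : IsInner ff := by
  refine ⟨fun w hw => ?_, fun z hz => norm_ff_lt hz, ?_⟩
  · rw [mem_ball_zero_iff] at hw
    exact (differentiableAt_ff hw).differentiableWithinAt
  · set B : Set ℝ := {θ : ℝ | Complex.exp (θ * I) = 1} ∪
      ⋃ n : ℕ, {θ : ℝ | Complex.exp (θ * I) = cay ((-(2 : ℝ) ^ n : ℝ) : ℂ)} with hB
    have hBc : B.Countable :=
      (countable_exp 1).union (countable_iUnion fun n => countable_exp _)
    have h0 := hBc.measure_zero MeasureTheory.volume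
    rw [← MeasureTheory.compl_mem_ae_iff] at h0
    filter_upwards [h0] with θ hθ
    rw [mem_compl_iff, hB, mem_union, not_or, mem_iUnion, not_exists] at hθ
    obtain ⟨h1, h2⟩ := hθ
    have hn : ‖Complex.exp (θ * I)‖ = 1 := Complex.norm_exp_ofReal_mul_I θ
    obtain ⟨x, hx⟩ := exists_real hn h1
    have hNP : NP (x : ℂ) := by
      refine NP_ofReal fun n hn => ?_
      have : x = -(2 : ℝ) ^ n := by linarith
      rw [this] at hx
      exact h2 n hx.symm
    refine ⟨cay (psi x : ℝ), norm_cay_ofReal _, ?_⟩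
    rw [← hx]
    exact radialLimit_ff hNP

/-! ### behaviour on the radius -/

lemma invCay_ofReal (r : ℝ) : invCay (r : ℂ) = (((1 + r) / (1 - r) : ℝ) : ℂ) * I := by
  unfold invCay
  push_cast
  ring

lemma tendsto_height : Tendsto (fun r : ℝ => (1 + r) / (1 - r)) (𝓝[<] 1) atTop := by
  have h1 : Tendsto (fun r : ℝ => 1 + r) (𝓝[<] 1) (𝓝 (1 + 1)) :=
    (Continuous.tendsto (by fun_prop) 1).mono_left nhdsWithin_le_nhds
  have h2 : Tendsto (fun r : ℝ => (1 - r)⁻¹) (𝓝[<] 1) atTop := by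
    refine Tendsto.comp tendsto_inv_nhdsGT_zero ?_
    rw [tendsto_nhdsWithin_iff]
    constructor
    · have : Tendsto (fun r : ℝ => 1 - r) (𝓝 1) (𝓝 (1 - 1)) := Continuous.tendsto (by fun_prop) 1
      rw [sub_self] at this
      exact this.mono_left nhdsWithin_le_nhds
    · filter_upwards [self_mem_nhdsWithin] with r hr
      have : r < 1 := hr
      exact sub_pos.2 this
  have h3 := Tendsto.pos_mul_atTop (by norm_num) h1 h2
  exact h3.congr fun r => by rw [div_eq_mul_inv]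

lemma tendsto_cay {α : Type*} {l : Filter α} {u : α → ℂ} (h : Tendsto (fun a => ‖u a‖) l atTop) :
    Tendsto (fun a => cay (u a)) l (𝓝 1) := by
  have h1 : Tendsto (fun a => ‖u a + I‖) l atTop := by
    refine tendsto_atTop_mono (fun a => ?_) (tendsto_atTop_add_const_right l (-1) h)
    have := norm_sub_le (u a + I) I
    rw [add_sub_cancel_right, Complex.norm_I] at this
    linarith
  have h2 : Tendsto (fun a => 1 - 2 * I / (u a + I)) l (𝓝 (1 - 0)) := by
    refine tendsto_const_nhds.sub ?_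
    rw [tendsto_zero_iff_norm_tendsto_zero]
    simp only [norm_div]
    exact tendsto_const_nhds.div_atTop h1
  rw [sub_zero] at h2
  refine h2.congr' ?_
  filter_upwards [h.eventually_gt_atTop 1] with a ha
  have h3 : u a + I ≠ 0 := by
    intro h0
    have : u a = -I := eq_neg_of_add_eq_zero_left h0
    rw [this, norm_neg, Complex.norm_I] at ha
    exact lt_irrefl _ ha
  unfold cay
  field_simp
  ring

lemma mem_radius : ∀ᶠ r : ℝ in 𝓝[<] 1, 0 ≤ r ∧ r < 1 := by
  have h1 : ∀ᶠ r : ℝ in 𝓝[<] (1 : ℝ), 0 < r :=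
    (eventually_gt_nhds (show (0 : ℝ) < 1 by norm_num)).filter_mono nhdsWithin_le_nhds
  filter_upwards [h1, self_mem_nhdsWithin] with r hr hr1
  exact ⟨hr.le, hr1⟩

lemma norm_radius {r : ℝ} (h : 0 ≤ r ∧ r < 1) : ‖(r : ℂ)‖ < 1 := by
  rw [Complex.norm_real, Real.norm_eq_abs, abs_of_nonneg h.1]
  exact h.2

lemma radialLimit_iter (n : ℕ) : RadialLimit (ff^[n + 1]) 1 1 := by
  unfold RadialLimit
  have h1 := (tendsto_iter_re n).comp tendsto_height
  have h2 : Tendsto (fun r : ℝ => ‖phi^[n + 1] (((1 + r) / (1 - r) : ℝ) * I)‖) (𝓝[<] 1) atTop :=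
    tendsto_atTop_mono (fun r => Complex.re_le_norm _) h1
  refine (tendsto_cay h2).congr' ?_
  filter_upwards [mem_radius] with r hr
  rw [mul_one, ff_iter (norm_radius hr), invCay_ofReal]

lemma not_rotation : ¬ ∃ c : ℂ, ∀ z, ‖z‖ < 1 → ff z = c * z := by
  rintro ⟨c, hc⟩
  -- the constant is one
  have h1 := radialLimit_iter 0
  unfold RadialLimit at h1
  have h2 : Tendsto (fun r : ℝ => c * (r : ℂ)) (𝓝[<] 1) (𝓝 (c * ((1 : ℝ) : ℂ))) :=
    (Continuous.tendsto (by fun_prop) 1).mono_left nhdsWithin_le_nhds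
  have h3 : c * ((1 : ℝ) : ℂ) = 1 := by
    refine tendsto_nhds_unique (h2.congr' ?_) h1
    filter_upwards [mem_radius] with r hr
    rw [mul_one]
    exact (hc r (norm_radius hr)).symm
  rw [Complex.ofReal_one, mul_one] at h3
  subst h3
  -- then `phi` is the identity on the imaginary axis
  have h4 := (tendsto_iter_re 0).comp tendsto_height
  obtain ⟨r, hr1, hr2⟩ := ((h4.eventually_gt_atTop 0).and mem_radius).exists
  have h5 := hc r (norm_radius hr2)
  rw [one_mul] at h5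
  have h6 := congrArg invCay h5
  unfold ff at h6
  rw [invCay_cay (add_I_ne (phi_im_pos (invCay_im_pos (norm_radius hr2))).le), invCay_ofReal] at h6
  have h7 : (0 : ℝ) < (phi ((((1 + r) / (1 - r) : ℝ) : ℂ) * I)).re := hr1
  rw [h6, Complex.re_ofReal_mul, Complex.I_re, mul_zero] at h7
  exact lt_irrefl _ h7

/-! ### contraction on compact subsets of the disc -/

lemma contraction {ρ : ℝ} (h0 : 0 ≤ ρ) (h1 : ρ < 1) : ∃ κ : ℝ, 0 ≤ κ ∧ κ < 1 ∧
    ∀ w : ℂ, ‖w‖ ≤ ρ → ‖ff w‖ ≤ κ * ‖w‖ := by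
  have hd : DifferentiableOn ℂ ff (ball 0 1) := isInner_ff.1
  have hmaps : Set.MapsTo ff (ball 0 1) (closedBall (ff 0) 1) := by
    intro z hz
    rw [ff_zero, mem_closedBall_zero_iff]
    rw [mem_ball_zero_iff] at hz
    exact (norm_ff_lt hz).le
  have hc : ContinuousOn (dslope ff 0) (ball 0 1) :=
    (continuousOn_dslope (ball_mem_nhds _ one_pos)).2
      ⟨hd.continuousOn, differentiableAt_ff (by simp)⟩
  have hsub : closedBall (0 : ℂ) ρ ⊆ ball 0 1 := closedBall_subset_ball h1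
  obtain ⟨z0, hz0, hmax⟩ := (isCompact_closedBall (0 : ℂ) ρ).exists_isMaxOn
    ⟨0, mem_closedBall_self h0⟩ (hc.mono hsub).norm
  refine ⟨‖dslope ff 0 z0‖, norm_nonneg _, ?_, fun w hw => ?_⟩
  · refine lt_of_le_of_ne ?_ ?_
    · have := Complex.norm_dslope_le_div_of_mapsTo_ball hd hmaps (hsub hz0)
      simpa using this
    · intro heq
      have h2 := Complex.affine_of_mapsTo_ball_of_norm_dslope_eq_div hd hmaps (hsub hz0)
        (by rw [heq]; norm_num)
      refine not_rotation ⟨dslope ff 0 z0, fun z hz => ?_⟩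
      have h3 := h2 (mem_ball_zero_iff.2 hz)
      simp only [ff_zero, sub_zero, zero_add, smul_eq_mul] at h3
      rw [h3, mul_comm]
  · have h3 := hmax (mem_closedBall_zero_iff.2 hw)
    have h4 : ff w = w * dslope ff 0 w := by
      have h5 := sub_smul_dslope ff 0 w
      rw [sub_zero, ff_zero, sub_zero, smul_eq_mul] at h5
      exact h5.symm
    rw [h4, norm_mul, mul_comm]
    exact mul_le_mul_of_nonneg_right h3 (norm_nonneg _)

lemma iter_le {ρ κ : ℝ} (hκ0 : 0 ≤ κ) (hκ1 : κ < 1)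
    (h : ∀ w : ℂ, ‖w‖ ≤ ρ → ‖ff w‖ ≤ κ * ‖w‖) {w : ℂ} (hw : ‖w‖ ≤ ρ) (n : ℕ) :
    ‖ff^[n] w‖ ≤ κ ^ n * ‖w‖ := by
  induction n with
  | zero => simp
  | succ n ih =>
    rw [Function.iterate_succ_apply']
    have h2 : ‖ff^[n] w‖ ≤ ρ := by
      refine ih.trans ((mul_le_of_le_one_left (norm_nonneg _) ?_).trans hw)
      exact pow_le_one₀ hκ0 hκ1.le
    calc ‖ff (ff^[n] w)‖ ≤ κ * ‖ff^[n] w‖ := h _ h2
      _ ≤ κ * (κ ^ n * ‖w‖) := by gcongr
      _ = κ ^ (n + 1) * ‖w‖ := by ring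

lemma summable_iter {w : ℂ} (hw : ‖w‖ < 1) : Summable fun n => ‖ff^[n] w‖ := by
  obtain ⟨κ, hκ0, hκ1, hκ⟩ := contraction (norm_nonneg w) hw
  refine Summable.of_nonneg_of_le (fun n => norm_nonneg _)
    (fun n => iter_le hκ0 hκ1 hκ le_rfl n) ?_
  exact (summable_geometric_of_lt_one hκ0 hκ1).mul_right _

lemma denjoy_wolff (y : ℝ) (hy : 0 < y) : Tendsto (fun n => phi^[n] (y * I)) atTop (𝓝 I) := by
  have hz : 0 < ((y : ℂ) * I).im := by simpa using hy
  have hw := norm_cay_lt hz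
  have h1 : Tendsto (fun n => ff^[n] (cay (y * I))) atTop (𝓝 0) :=
    tendsto_zero_iff_norm_tendsto_zero.2 (summable_iter hw).tendsto_atTop_zero
  have h2 : ContinuousAt invCay 0 := (differentiableAt_invCay (by norm_num)).continuousAt
  have h3 : invCay 0 = I := by unfold invCay; simp
  have h4 := h2.tendsto.comp h1
  rw [h3] at h4
  refine h4.congr fun n => ?_
  rw [Function.comp_apply, ff_iter hw, invCay_cay (add_I_ne hz.le),
    invCay_cay (add_I_ne (iter_im_pos hz n).le)]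

/-! ### conclusion -/

lemma differentiableAt_iter {w : ℂ} (hw : ‖w‖ < 1) (n : ℕ) : DifferentiableAt ℂ (ff^[n]) w := by
  induction n with
  | zero => exact differentiableAt_id
  | succ n ih =>
    rw [Function.iterate_succ']
    exact DifferentiableAt.comp w (differentiableAt_ff (norm_ff_iter_lt hw n)) ih

/-- a bounded sequence of coefficients gives an analytic function -/
lemma series {a : ℕ → ℂ} {C : ℝ} (ha : ∀ n, ‖a n‖ ≤ C) :
    (∀ w : ℂ, ‖w‖ < 1 → Summable fun n => a n * ff^[n + 1] w) ∧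
      DifferentiableOn ℂ (fun w => ∑' n, a n * ff^[n + 1] w) (ball 0 1) := by
  have hC : 0 ≤ C := (norm_nonneg _).trans (ha 0)
  have hbound : ∀ ρ : ℝ, 0 ≤ ρ → ρ < 1 → ∃ u : ℕ → ℝ, Summable u ∧
      ∀ n (w : ℂ), ‖w‖ ≤ ρ → ‖a n * ff^[n + 1] w‖ ≤ u n := by
    intro ρ h0 h1
    obtain ⟨κ, hκ0, hκ1, hκ⟩ := contraction h0 h1
    refine ⟨fun n => C * (κ ^ (n + 1) * 1), ?_, fun n w hw => ?_⟩
    · refine Summable.mul_left _ (Summable.mul_right _ ?_)
      exact (summable_nat_add_iff 1).2 (summable_geometric_of_lt_one hκ0 hκ1)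
    · rw [norm_mul]
      have h2 := iter_le hκ0 hκ1 hκ hw (n + 1)
      have h3 : ‖ff^[n + 1] w‖ ≤ κ ^ (n + 1) * 1 := by
        refine h2.trans ?_
        have h4 : ‖w‖ ≤ 1 := hw.trans h1.le
        gcongr
      exact mul_le_mul (ha n) h3 (norm_nonneg _) hC
  refine ⟨fun w hw => ?_, fun w hw => ?_⟩
  · obtain ⟨u, hu, hle⟩ := hbound ‖w‖ (norm_nonneg _) hw
    exact Summable.of_norm_bounded hu fun n => hle n w le_rfl
  · rw [mem_ball_zero_iff] at hw
    obtain ⟨ρ, hρ1, hρ2⟩ := exists_between hw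
    obtain ⟨u, hu, hle⟩ := hbound ρ ((norm_nonneg _).trans hρ1.le) hρ2
    have h1 : DifferentiableOn ℂ (fun w => ∑' n, a n * ff^[n + 1] w) (ball 0 ρ) := by
      refine differentiableOn_tsum_of_summable_norm hu (fun n z hz => ?_) isOpen_ball
        fun n z hz => hle n z (mem_ball_zero_iff.1 hz).le
      have hz1 : ‖z‖ < 1 := (mem_ball_zero_iff.1 hz).trans hρ2
      exact ((differentiableAt_iter hz1 (n + 1)).const_mul _).differentiableWithinAt
    exact ((h1 w (mem_ball_zero_iff.2 hρ1)).differentiableAt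
      (isOpen_ball.mem_nhds (mem_ball_zero_iff.2 hρ1))).differentiableWithinAt

/-- the sequence `A` shifted by one -/
def shift (A : ℕ → ℂ) : ℕ → ℂ
  | 0 => 0
  | n + 1 => A n

lemma sum_diff (A : ℕ → ℂ) (N : ℕ) : ∑ n ∈ Finset.range N, (A n - shift A n) = shift A N := by
  induction N with
  | zero => rfl
  | succ N ih =>
    rw [Finset.sum_range_succ, ih]
    show shift A N + (A N - shift A N) = A N
    ring

lemma abel {A : ℕ → ℂ} {C : ℝ} (hA : ∀ n, ‖A n‖ ≤ C) {w : ℂ} (hw : ‖w‖ < 1) :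
    ∑' n, (A n - shift A n) * ff^[n + 1] w = ∑' n, A n * (ff^[n + 1] w - ff^[n + 2] w) := by
  have hC : 0 ≤ C := (norm_nonneg _).trans (hA 0)
  have hs : ∀ n, ‖shift A n‖ ≤ C := by
    intro n
    match n with
    | 0 => simpa [shift] using hC
    | n + 1 => exact hA n
  have h1 := (series hA).1 w hw
  have h2 := (series hs).1 w hw
  have h3 : Summable fun n => A n * ff^[n + 2] w := by
    have := (summable_nat_add_iff 1).2 h2
    exact this
  have h4 : ∑' n, shift A n * ff^[n + 1] w = ∑' n, A n * ff^[n + 2] w := by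
    rw [h2.tsum_eq_zero_add]
    have : shift A 0 = 0 := rfl
    rw [this, zero_mul, zero_add]
    rfl
  calc ∑' n, (A n - shift A n) * ff^[n + 1] w
      = ∑' n, (A n * ff^[n + 1] w - shift A n * ff^[n + 1] w) := by simp only [sub_mul]
    _ = ∑' n, A n * ff^[n + 1] w - ∑' n, shift A n * ff^[n + 1] w := h1.tsum_sub h2
    _ = ∑' n, A n * ff^[n + 1] w - ∑' n, A n * ff^[n + 2] w := by rw [h4]
    _ = ∑' n, (A n * ff^[n + 1] w - A n * ff^[n + 2] w) := (h1.tsum_sub h3).symm
    _ = ∑' n, A n * (ff^[n + 1] w - ff^[n + 2] w) := by simp only [mul_sub]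

/-- the radius corresponding to a height -/
def rad (y : ℝ) : ℝ := (y - 1) / (y + 1)

lemma rad_mem {y : ℝ} (hy : 1 ≤ y) : 0 ≤ rad y ∧ rad y < 1 := by
  unfold rad
  constructor
  · exact div_nonneg (by linarith) (by linarith)
  · rw [div_lt_one (by linarith)]; linarith

lemma height_rad {y : ℝ} (hy : 1 ≤ y) : (1 + rad y) / (1 - rad y) = y := by
  unfold rad
  have : y + 1 ≠ 0 := by linarith
  have h2 : 1 - (y - 1) / (y + 1) = 2 / (y + 1) := by field_simp; ring
  have h3 : 1 + (y - 1) / (y + 1) = 2 * y / (y + 1) := by field_simp; ring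
  rw [h2, h3]
  field_simp

lemma tendsto_rad : Tendsto rad atTop (𝓝[<] 1) := by
  rw [tendsto_nhdsWithin_iff]
  constructor
  · have h1 : Tendsto (fun y : ℝ => 1 - 2 / (y + 1)) atTop (𝓝 (1 - 0)) := by
      refine tendsto_const_nhds.sub (tendsto_const_nhds.div_atTop ?_)
      exact tendsto_atTop_add_const_right _ _ tendsto_id
    rw [sub_zero] at h1
    refine h1.congr' ?_
    filter_upwards [eventually_ge_atTop 1] with y hy
    unfold rad
    have : y + 1 ≠ 0 := by linarith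
    field_simp
    ring
  · filter_upwards [eventually_ge_atTop 1] with y hy
    exact (rad_mem hy).2

theorem main : ∃ (f : ℂ → ℂ) (a : ℕ → ℂ), IsInner f ∧ f 0 = 0 ∧
    (¬ ∃ c : ℂ, ∀ z, ‖z‖ < 1 → f z = c * z) ∧
    (∀ z : ℂ, ‖z‖ < 1 → Summable fun n => a n * f^[n + 1] z) ∧
    DifferentiableOn ℂ (fun z => ∑' n, a n * f^[n + 1] z) (ball 0 1) ∧
    (∀ n, RadialLimit (f^[n + 1]) 1 1) ∧
    Tendsto (fun N => ∑ n ∈ Finset.range N, a n * 1) atTop (𝓝 0) ∧
    ¬ ∃ L : ℂ, RadialLimit (fun z => ∑' n, a n * f^[n + 1] z) 1 L := by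
  have hvar := variation denjoy_wolff
  choose y hy1 hy2 K hK using fun j : ℕ => hvar (j : ℝ) (j : ℝ)
  have hw : ∀ j, ‖((rad (y j) : ℝ) : ℂ)‖ < 1 := fun j => norm_radius (rad_mem (hy2 j))
  set d : ℕ → ℕ → ℂ := fun j k => ff^[k + 1] (rad (y j) : ℝ) - ff^[k + 2] (rad (y j) : ℝ) with hd
  have hdsum : ∀ j, Summable fun k => ‖d j k‖ := by
    intro j
    have h1 := summable_iter (hw j)
    refine Summable.of_nonneg_of_le (fun _ => norm_nonneg _) (fun k => norm_sub_le _ _) ?_
    exact ((summable_nat_add_iff 1).2 h1).add ((summable_nat_add_iff 2).2 h1)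
  have hdV : ∀ j : ℕ, ∃ K : ℕ, (j : ℝ) ≤ ∑ k ∈ Finset.range K, ‖d j k‖ := by
    intro j
    refine ⟨K j, (hK j).trans (le_of_eq ?_)⟩
    refine Finset.sum_congr rfl fun k _ => ?_
    simp only [hd]
    rw [ff_iter (hw j), ff_iter (hw j), invCay_ofReal, height_rad (hy2 j)]
  obtain ⟨A, hA0, hA⟩ := exists_null_seq d hdsum hdV
  obtain ⟨C, hC⟩ : ∃ C, ∀ n, ‖A n‖ ≤ C := by
    obtain ⟨C, hC⟩ := hA0.norm.bddAbove_range
    exact ⟨C, fun n => hC ⟨n, rfl⟩⟩
  have hC0 : 0 ≤ C := (norm_nonneg _).trans (hC 0)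
  have hs : ∀ n, ‖A n - shift A n‖ ≤ C + C := by
    intro n
    refine (norm_sub_le _ _).trans (add_le_add (hC n) ?_)
    match n with
    | 0 => simpa [shift] using hC0
    | n + 1 => exact hC n
  refine ⟨ff, fun n => A n - shift A n, isInner_ff, ff_zero, not_rotation, (series hs).1,
    (series hs).2, radialLimit_iter, ?_, ?_⟩
  · simp only [mul_one, sum_diff]
    rw [← tendsto_add_atTop_iff_nat 1]
    exact hA0
  · rintro ⟨L, hL⟩
    unfold RadialLimit at hL
    simp only [mul_one] at hL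
    have hyinf : Tendsto y atTop atTop :=
      tendsto_atTop_mono (fun j => hy1 j) tendsto_natCast_atTop_atTop
    have h1 := (hL.comp (tendsto_rad.comp hyinf)).norm.bddAbove_range
    obtain ⟨M, hM⟩ := h1
    obtain ⟨j, hj⟩ := hA M
    have h2 : ‖∑' n, (A n - shift A n) * ff^[n + 1] (rad (y j) : ℝ)‖ ≤ M := hM ⟨j, rfl⟩
    rw [abel hC (hw j)] at h2
    exact absurd hj (not_lt.2 h2)

end

end Pool.Agent.InnerSeries
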