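import Pool.Agent.InnerSeries.Defs

open Filter Topology Complex Metric Set

namespace Pool.Agent.InnerSeries

noncomputable section

/-! ### the series -/

/-- `z` avoids the poles `-2^n` -/
def NP (z : ℂ) : Prop := ∀ n : ℕ, (2 : ℂ) ^ n + z ≠ 0

/-- the function with poles at `-2^n` -/
def g (z : ℂ) : ℂ := ∑' n : ℕ, z / ((2 : ℂ) ^ n + z)

lemma exists_eps {z : ℂ} (h : NP z) : ∃ ε : ℝ, 0 < ε ∧ ∀ n : ℕ, ε * 2 ^ n ≤ ‖(2 : ℂ) ^ n + z‖ := by
  have h1 : Tendsto (fun n : ℕ => ‖(1 + z / (2 : ℂ) ^ n)⁻¹‖) atTop (𝓝 ‖(1 + (0 : ℂ))⁻¹‖) := by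
    refine Tendsto.norm (Tendsto.inv₀ (tendsto_const_nhds.add ?_) (by simp))
    have h2 : Tendsto (fun n : ℕ => z * ((2 : ℂ)⁻¹) ^ n) atTop (𝓝 (z * 0)) := by
      refine tendsto_const_nhds.mul (tendsto_pow_atTop_nhds_zero_of_norm_lt_one ?_)
      rw [norm_inv, Complex.norm_ofNat]; norm_num
    rw [mul_zero] at h2
    refine h2.congr fun n => ?_
    rw [inv_pow]; rfl
  obtain ⟨K, hK⟩ := h1.bddAbove_range
  have hK' : ∀ n : ℕ, ‖(1 + z / (2 : ℂ) ^ n)⁻¹‖ ≤ K := fun n => hK ⟨n, rfl⟩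
  have hpos : ∀ n : ℕ, 0 < ‖(2 : ℂ) ^ n + z‖ := fun n => norm_pos_iff.2 (h n)
  have hval : ∀ n : ℕ, ‖(1 + z / (2 : ℂ) ^ n)⁻¹‖ = 2 ^ n / ‖(2 : ℂ) ^ n + z‖ := by
    intro n
    have e : (1 + z / (2 : ℂ) ^ n)⁻¹ = 2 ^ n / ((2 : ℂ) ^ n + z) := by
      have := h n
      field_simp
    rw [e, norm_div, norm_pow, Complex.norm_ofNat]
  have hK0 : 0 < K := by
    refine lt_of_lt_of_le ?_ (hK' 0)
    rw [hval]
    exact div_pos (by positivity) (hpos 0)
  refine ⟨K⁻¹, inv_pos.2 hK0, fun n => ?_⟩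
  have h3 := hK' n
  rw [hval, div_le_iff₀ (hpos n)] at h3
  rw [inv_mul_le_iff₀ hK0]
  exact h3

lemma NP_of_im {z : ℂ} (h : 0 < z.im) : NP z := by
  intro n hn
  have h1 := congrArg Complex.im hn
  rw [Complex.add_im, Complex.zero_im] at h1
  have h2 : ((2 : ℂ) ^ n).im = 0 := by
    have : (2 : ℂ) ^ n = (((2 : ℝ) ^ n : ℝ) : ℂ) := by push_cast; rfl
    rw [this, Complex.ofReal_im]
  linarith

lemma term_bound {z z0 : ℂ} {ε : ℝ} (hε : 0 < ε) (h : ∀ n : ℕ, ε * 2 ^ n ≤ ‖(2 : ℂ) ^ n + z0‖)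
    (hz : z ∈ ball z0 (ε / 2)) (n : ℕ) : ε / 2 * 2 ^ n ≤ ‖(2 : ℂ) ^ n + z‖ := by
  rw [mem_ball, dist_eq_norm] at hz
  have h1 := h n
  have h2 : ‖(2 : ℂ) ^ n + z0‖ ≤ ‖(2 : ℂ) ^ n + z‖ + ‖z - z0‖ := by
    have : (2 : ℂ) ^ n + z0 = ((2 : ℂ) ^ n + z) - (z - z0) := by ring
    rw [this]
    exact norm_sub_le _ _
  have h3 : (1 : ℝ) ≤ 2 ^ n := one_le_pow₀ (by norm_num)
  nlinarith

lemma term_le {z : ℂ} {δ R : ℝ} (hδ : 0 < δ) (hR : ‖z‖ ≤ R) (n : ℕ)
    (h : δ * 2 ^ n ≤ ‖(2 : ℂ) ^ n + z‖) : ‖z / ((2 : ℂ) ^ n + z)‖ ≤ R / δ * (1 / 2) ^ n := by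
  have hp : (0 : ℝ) < 2 ^ n := by positivity
  rw [norm_div]
  calc ‖z‖ / ‖(2 : ℂ) ^ n + z‖ ≤ R / (δ * 2 ^ n) := by
        apply div_le_div₀ ((norm_nonneg z).trans hR) hR (by positivity) h
    _ = R / δ * (1 / 2) ^ n := by
        rw [one_div, inv_pow]; field_simp

lemma summable_g {z : ℂ} (h : NP z) : Summable fun n : ℕ => z / ((2 : ℂ) ^ n + z) := by
  obtain ⟨ε, hε, hb⟩ := exists_eps h
  refine Summable.of_norm_bounded (g := fun n : ℕ => ‖z‖ / ε * (1 / 2 : ℝ) ^ n)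
    (summable_geometric_two.mul_left _) fun n => ?_
  exact term_le hε le_rfl n (hb n)

lemma differentiableAt_g {z0 : ℂ} (h : NP z0) : DifferentiableAt ℂ g z0 := by
  obtain ⟨ε, hε, hb⟩ := exists_eps h
  have hd : DifferentiableOn ℂ (fun z : ℂ => ∑' n : ℕ, z / ((2 : ℂ) ^ n + z)) (ball z0 (ε / 2)) := by
    refine differentiableOn_tsum_of_summable_norm
      (u := fun n : ℕ => (‖z0‖ + ε / 2) / (ε / 2) * (1 / 2 : ℝ) ^ n)
      (summable_geometric_two.mul_left _) (fun n => ?_) isOpen_ball fun n z hz => ?_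
    · intro z hz
      have h1 := term_bound hε hb hz n
      have h2 : (2 : ℂ) ^ n + z ≠ 0 := by
        intro h0
        rw [h0, norm_zero] at h1
        have : 0 < ε / 2 * 2 ^ n := by positivity
        linarith
      exact (DifferentiableAt.div (by fun_prop) (by fun_prop) h2).differentiableWithinAt
    · refine term_le (half_pos hε) ?_ n (term_bound hε hb hz n)
      rw [mem_ball, dist_eq_norm] at hz
      have : ‖z‖ ≤ ‖z0‖ + ‖z - z0‖ := by
        have := norm_add_le z0 (z - z0)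
        simpa using this
      linarith
  exact (hd z0 (mem_ball_self (half_pos hε))).differentiableAt (ball_mem_nhds _ (half_pos hε))

/-! ### real and imaginary parts -/

lemma two_pow_add_re (n : ℕ) (z : ℂ) : ((2 : ℂ) ^ n + z).re = 2 ^ n + z.re := by
  have : (2 : ℂ) ^ n = (((2 : ℝ) ^ n : ℝ) : ℂ) := by push_cast; rfl
  rw [this, Complex.add_re, Complex.ofReal_re]

lemma two_pow_add_im (n : ℕ) (z : ℂ) : ((2 : ℂ) ^ n + z).im = z.im := by
  have : (2 : ℂ) ^ n = (((2 : ℝ) ^ n : ℝ) : ℂ) := by push_cast; rfl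
  rw [this, Complex.add_im, Complex.ofReal_im, zero_add]

lemma two_pow_add_normSq (n : ℕ) (z : ℂ) :
    normSq ((2 : ℂ) ^ n + z) = (2 ^ n + z.re) ^ 2 + z.im ^ 2 := by
  rw [normSq_apply, two_pow_add_re, two_pow_add_im]; ring

lemma term_re (n : ℕ) (z : ℂ) : (z / ((2 : ℂ) ^ n + z)).re =
    (z.re * (2 ^ n + z.re) + z.im ^ 2) / ((2 ^ n + z.re) ^ 2 + z.im ^ 2) := by
  rw [Complex.div_re, two_pow_add_re, two_pow_add_im, two_pow_add_normSq]; ring

lemma term_im (n : ℕ) (z : ℂ) : (z / ((2 : ℂ) ^ n + z)).im =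
    2 ^ n * z.im / ((2 ^ n + z.re) ^ 2 + z.im ^ 2) := by
  rw [Complex.div_im, two_pow_add_re, two_pow_add_im, two_pow_add_normSq]; ring

lemma g_re {z : ℂ} (h : NP z) : (g z).re =
    ∑' n : ℕ, (z.re * (2 ^ n + z.re) + z.im ^ 2) / ((2 ^ n + z.re) ^ 2 + z.im ^ 2) := by
  unfold g
  rw [Complex.re_tsum (summable_g h)]
  exact tsum_congr fun n => term_re n z

lemma g_im {z : ℂ} (h : NP z) : (g z).im =
    ∑' n : ℕ, 2 ^ n * z.im / ((2 ^ n + z.re) ^ 2 + z.im ^ 2) := by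
  unfold g
  rw [Complex.im_tsum (summable_g h)]
  exact tsum_congr fun n => term_im n z

lemma summable_re {z : ℂ} (h : NP z) : Summable fun n : ℕ =>
    (z.re * (2 ^ n + z.re) + z.im ^ 2) / ((2 ^ n + z.re) ^ 2 + z.im ^ 2) :=
  ((Complex.reCLM.summable (summable_g h))).congr fun n => term_re n z

lemma summable_im {z : ℂ} (h : NP z) : Summable fun n : ℕ =>
    2 ^ n * z.im / ((2 ^ n + z.re) ^ 2 + z.im ^ 2) :=
  ((Complex.imCLM.summable (summable_g h))).congr fun n => term_im n z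

/-! ### the normalized map -/

/-- real part of `g i` -/
def cA : ℝ := (g I).re

/-- imaginary part of `g i` -/
def cB : ℝ := (g I).im

lemma NP_I : NP I := NP_of_im (by simp)

lemma hasSum_cA : HasSum (fun n : ℕ => 1 / (((2 : ℝ) ^ n) ^ 2 + 1)) cA := by
  have h := (summable_re NP_I).hasSum
  rw [← g_re NP_I] at h
  have e : cA = (g I).re := rfl
  rw [e]
  convert h using 2 with n
  simp

lemma hasSum_cB : HasSum (fun n : ℕ => (2 : ℝ) ^ n / (((2 : ℝ) ^ n) ^ 2 + 1)) cB := by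
  have h := (summable_im NP_I).hasSum
  rw [← g_im NP_I] at h
  have e : cB = (g I).im := rfl
  rw [e]
  convert h using 2 with n
  simp

lemma cB_pos : 0 < cB := by
  have h := hasSum_cB.summable.tsum_pos (fun n => by positivity) 0 (by norm_num)
  rwa [hasSum_cB.tsum_eq] at h

/-- the self-map of the upper half plane -/
def phi (z : ℂ) : ℂ := (g z - cA) / cB

lemma phi_re (z : ℂ) : (phi z).re = ((g z).re - cA) / cB := by
  unfold phi
  rw [Complex.div_ofReal_re, Complex.sub_re, Complex.ofReal_re]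

lemma phi_im (z : ℂ) : (phi z).im = (g z).im / cB := by
  unfold phi
  rw [Complex.div_ofReal_im, Complex.sub_im, Complex.ofReal_im, sub_zero]

lemma phi_I : phi I = I := by
  apply Complex.ext
  · rw [phi_re]; simp [cA]
  · rw [phi_im]
    have := cB_pos.ne'
    rw [Complex.I_im]
    exact div_self this

lemma differentiableAt_phi {z : ℂ} (h : NP z) : DifferentiableAt ℂ phi z :=
  ((differentiableAt_g h).sub_const _).div_const _

lemma phi_im_pos {z : ℂ} (hz : 0 < z.im) : 0 < (phi z).im := by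
  have h := NP_of_im hz
  rw [phi_im, g_im h]
  refine div_pos ?_ cB_pos
  refine (summable_im h).tsum_pos (fun n => by positivity) 0 (by positivity)

/-- the real part decreases under `phi` -/
lemma phi_re_lt {z : ℂ} (hN : NP z) (hz : 0 < z.re) (hzi : z.im ^ 2 ≤ z.re ^ 2) :
    (phi z).re < z.re := by
  set x := z.re with hx
  set y := z.im with hy
  have h1 := (hasSum_cA.add (hasSum_cB.mul_left x)).sub (summable_re hN).hasSum
  rw [← g_re hN] at h1
  have hterm : ∀ n : ℕ, 1 / (((2 : ℝ) ^ n) ^ 2 + 1) + x * ((2 : ℝ) ^ n / (((2 : ℝ) ^ n) ^ 2 + 1)) -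
      (z.re * (2 ^ n + z.re) + z.im ^ 2) / ((2 ^ n + z.re) ^ 2 + z.im ^ 2) =
      2 ^ n * ((2 ^ n + x) * (1 + x ^ 2) + y ^ 2 * (x - 2 ^ n)) /
        ((((2 : ℝ) ^ n) ^ 2 + 1) * ((2 ^ n + x) ^ 2 + y ^ 2)) := by
    intro n
    rw [← hx, ← hy]
    have h2 : (0 : ℝ) < (2 ^ n + x) ^ 2 + y ^ 2 := by positivity
    have h3 : (0 : ℝ) < ((2 : ℝ) ^ n) ^ 2 + 1 := by positivity
    field_simp
    ring
  have hnum : ∀ n : ℕ, 0 < (2 ^ n + x) * (1 + x ^ 2) + y ^ 2 * (x - 2 ^ n) := by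
    intro n
    have h2 : (0 : ℝ) < 2 ^ n := by positivity
    nlinarith [mul_pos h2 hz, mul_nonneg h2.le (sub_nonneg.2 hzi), mul_nonneg hz.le (sq_nonneg y),
      mul_nonneg hz.le (sq_nonneg x)]
  have hpos : 0 < cA + x * cB - (g z).re := by
    rw [← h1.tsum_eq]
    refine h1.summable.tsum_pos (fun n => ?_) 0 ?_
    · rw [hterm]
      have := hnum n
      positivity
    · rw [hterm]
      have := hnum 0
      positivity
  rw [phi_re, div_lt_iff₀ cB_pos]
  linarith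

/-! ### the real line -/

lemma NP_ofReal {x : ℝ} (h : ∀ n : ℕ, 2 ^ n + x ≠ 0) : NP (x : ℂ) := by
  intro n hn
  apply h n
  have h1 := congrArg Complex.re hn
  rw [two_pow_add_re] at h1
  simpa using h1

/-- the real version of `g` -/
def gr (x : ℝ) : ℝ := ∑' n : ℕ, x / (2 ^ n + x)

lemma g_ofReal (x : ℝ) : g (x : ℂ) = (gr x : ℂ) := by
  unfold g gr
  rw [Complex.ofReal_tsum]
  refine tsum_congr fun n => ?_
  push_cast
  rfl

/-- the real version of `phi` -/
def psi (x : ℝ) : ℝ := (gr x - cA) / cB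

lemma phi_ofReal (x : ℝ) : phi (x : ℂ) = (psi x : ℂ) := by
  unfold phi psi
  rw [g_ofReal]
  push_cast
  rfl

lemma summable_gr {x : ℝ} (h : ∀ n : ℕ, 2 ^ n + x ≠ 0) : Summable fun n : ℕ => x / (2 ^ n + x) := by
  have h1 := Complex.reCLM.summable (summable_g (NP_ofReal h))
  refine h1.congr fun n => ?_
  have : (x : ℂ) / ((2 : ℂ) ^ n + x) = ((x / (2 ^ n + x) : ℝ) : ℂ) := by push_cast; rfl
  rw [this]
  rfl

lemma continuousAt_gr {x : ℝ} (h : ∀ n : ℕ, 2 ^ n + x ≠ 0) : ContinuousAt gr x := by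
  have h1 : ContinuousAt (fun t : ℝ => (g (t : ℂ)).re) x := by
    refine ContinuousAt.comp (f := fun t : ℝ => g (t : ℂ)) Complex.continuous_re.continuousAt ?_
    exact ContinuousAt.comp (f := fun t : ℝ => (t : ℂ)) (differentiableAt_g (NP_ofReal h)).continuousAt
      Complex.continuous_ofReal.continuousAt
  have h2 : (fun t : ℝ => (g (t : ℂ)).re) = gr := by
    funext t
    rw [g_ofReal, Complex.ofReal_re]
  rwa [h2] at h1

lemma ne_of_gt_neg_one {x : ℝ} (hx : -1 < x) (n : ℕ) : 2 ^ n + x ≠ 0 := by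
  have : (1 : ℝ) ≤ 2 ^ n := one_le_pow₀ (by norm_num)
  linarith

lemma ne_of_mem_Ioo {x : ℝ} (hx : x ∈ Ioo (-4 : ℝ) (-2)) (n : ℕ) : 2 ^ n + x ≠ 0 := by
  obtain ⟨h1, h2⟩ := hx
  match n with
  | 0 => norm_num; linarith
  | 1 => norm_num; linarith
  | n + 2 =>
    have : (1 : ℝ) ≤ 2 ^ n := one_le_pow₀ (by norm_num)
    have : (4 : ℝ) ≤ 2 ^ (n + 2) := by rw [pow_add]; linarith
    linarith

/-- lower bound for the real part -/
lemma g_re_ge {z : ℂ} (hN : NP z) (hz : 0 ≤ z.re) {N : ℕ} (h : 2 ^ N ≤ ‖z‖) :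
    (N + 1) / 2 ≤ (g z).re := by
  rw [g_re hN]
  have hnn : ∀ n : ℕ, 0 ≤ (z.re * (2 ^ n + z.re) + z.im ^ 2) / ((2 ^ n + z.re) ^ 2 + z.im ^ 2) :=
    fun n => by positivity
  refine le_trans ?_ ((summable_re hN).sum_le_tsum (Finset.range (N + 1)) fun n _ => hnn n)
  have hle : ∀ n ∈ Finset.range (N + 1), (1 / 2 : ℝ) ≤
      (z.re * (2 ^ n + z.re) + z.im ^ 2) / ((2 ^ n + z.re) ^ 2 + z.im ^ 2) := by
    intro n hn
    have h1 : n ≤ N := Nat.lt_succ_iff.1 (Finset.mem_range.1 hn)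
    have h2 : (2 : ℝ) ^ n ≤ 2 ^ N := pow_le_pow_right₀ (by norm_num) h1
    have h3 : ((2 : ℝ) ^ n) ^ 2 ≤ z.re ^ 2 + z.im ^ 2 := by
      have h4 : ‖z‖ ^ 2 = z.re ^ 2 + z.im ^ 2 := by rw [Complex.sq_norm, normSq_apply]; ring
      rw [← h4]
      exact pow_le_pow_left₀ (by positivity) (h2.trans h) 2
    have h5 : (0 : ℝ) < (2 ^ n + z.re) ^ 2 + z.im ^ 2 := by positivity
    rw [le_div_iff₀ h5]
    nlinarith
  have h6 := Finset.sum_le_sum hle
  rw [Finset.sum_const, Finset.card_range, nsmul_eq_mul] at h6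
  push_cast at h6
  linarith

lemma exists_psi_ioi (t : ℝ) : ∃ x : ℝ, -1 < x ∧ psi x = t := by
  -- it suffices to solve `gr x = s`
  obtain ⟨s, hs⟩ : ∃ s : ℝ, s = t * cB + cA := ⟨_, rfl⟩
  have hcont : ContinuousOn gr (Ioi (-1)) := fun x hx =>
    (continuousAt_gr (ne_of_gt_neg_one hx)).continuousWithinAt
  -- a point with a small value
  obtain ⟨u, hu0, hus⟩ : ∃ u : ℝ, 0 < u ∧ -u ≤ s := ⟨max 1 (-s), by positivity, by
    have := le_max_right 1 (-s); linarith⟩
  set a : ℝ := -u / (1 + u) with ha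
  have ha1 : -1 < a := by
    rw [ha, lt_div_iff₀ (by linarith)]; linarith
  have ha0 : a < 0 := div_neg_of_neg_of_pos (by linarith) (by linarith)
  have hga : gr a ≤ s := by
    refine le_trans ?_ hus
    unfold gr
    have h1 := (summable_gr (ne_of_gt_neg_one ha1)).sum_add_tsum_nat_add 1
    rw [← h1, Finset.sum_range_one, pow_zero]
    have h2 : a / (1 + a) = -u := by
      have h1u : (1 + u) ≠ 0 := by positivity
      rw [ha]
      field_simp
      ring
    rw [h2]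
    have h3 : ∑' i : ℕ, a / (2 ^ (i + 1) + a) ≤ 0 := by
      refine tsum_nonpos fun n => ?_
      refine div_nonpos_of_nonpos_of_nonneg ha0.le ?_
      have : (1 : ℝ) ≤ 2 ^ (n + 1) := one_le_pow₀ (by norm_num)
      linarith
    linarith
  -- a point with a large value
  obtain ⟨N, hN⟩ := exists_nat_ge (2 * s)
  set b : ℝ := 2 ^ N with hb
  have hb0 : 0 < b := by positivity
  have hgb : s ≤ gr b := by
    have h1 := g_re_ge (z := (b : ℂ)) (NP_ofReal (ne_of_gt_neg_one (by linarith))) (by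
      rw [Complex.ofReal_re]; exact hb0.le) (N := N) (by
      rw [Complex.norm_real, Real.norm_eq_abs, abs_of_pos hb0])
    rw [g_ofReal, Complex.ofReal_re] at h1
    linarith
  have hab : a ≤ b := by linarith
  have hsub : Icc a b ⊆ Ioi (-1) := fun x hx => lt_of_lt_of_le ha1 hx.1
  obtain ⟨x, hx, hgx⟩ := intermediate_value_Icc hab (hcont.mono hsub) ⟨hga, hgb⟩
  refine ⟨x, hsub hx, ?_⟩
  unfold psi
  rw [hgx, hs, add_sub_cancel_right, mul_div_cancel_right₀ _ cB_pos.ne']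

lemma gr_split {x : ℝ} (hx : x ∈ Ioo (-4 : ℝ) (-2)) :
    x / (1 + x) + x / (2 + x) + x / (4 + x) - 2 ≤ gr x ∧
    gr x ≤ x / (1 + x) + x / (2 + x) + x / (4 + x) := by
  have h1 := (summable_gr (ne_of_mem_Ioo hx)).sum_add_tsum_nat_add 3
  have hs := (summable_nat_add_iff 3).2 (summable_gr (ne_of_mem_Ioo hx))
  obtain ⟨hx1, hx2⟩ := hx
  have h2 : ∑ i ∈ Finset.range 3, x / (2 ^ i + x) = x / (1 + x) + x / (2 + x) + x / (4 + x) := by
    rw [Finset.sum_range_succ, Finset.sum_range_succ, Finset.sum_range_one]; norm_num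
  rw [h2] at h1
  have hden : ∀ n : ℕ, 4 * 2 ^ n ≤ 2 ^ (n + 3) + x := by
    intro n
    have : (1 : ℝ) ≤ 2 ^ n := one_le_pow₀ (by norm_num)
    rw [pow_add]
    linarith
  have h3 : ∑' i : ℕ, x / (2 ^ (i + 3) + x) ≤ 0 := by
    refine tsum_nonpos fun n => ?_
    refine div_nonpos_of_nonpos_of_nonneg (by linarith) ?_
    have := hden n
    have : (0 : ℝ) ≤ 4 * 2 ^ n := by positivity
    linarith
  have h4 : -2 ≤ ∑' i : ℕ, x / (2 ^ (i + 3) + x) := by
    have h5 : ∀ n : ℕ, -((1 / 2 : ℝ) ^ n) ≤ x / (2 ^ (n + 3) + x) := by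
      intro n
      have hp : (0 : ℝ) < 4 * 2 ^ n := by positivity
      have hd := hden n
      rw [le_div_iff₀ (lt_of_lt_of_le hp hd)]
      have h6 : (1 / 2 : ℝ) ^ n * (4 * 2 ^ n) = 4 := by
        rw [one_div, inv_pow]; field_simp
      have h7 : (1 / 2 : ℝ) ^ n * (4 * 2 ^ n) ≤ (1 / 2 : ℝ) ^ n * (2 ^ (n + 3) + x) :=
        mul_le_mul_of_nonneg_left hd (by positivity)
      linarith
    have h8 := Summable.tsum_le_tsum h5 summable_geometric_two.neg hs
    rw [tsum_neg, tsum_geometric_two] at h8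
    exact h8
  unfold gr
  rw [← h1]
  constructor <;> linarith

lemma exists_psi_ioo (t : ℝ) : ∃ x ∈ Ioo (-4 : ℝ) (-2), psi x = t := by
  obtain ⟨s, hs⟩ : ∃ s : ℝ, s = t * cB + cA := ⟨_, rfl⟩
  have hcont : ContinuousOn gr (Ioo (-4) (-2)) := fun x hx =>
    (continuousAt_gr (ne_of_mem_Ioo hx)).continuousWithinAt
  obtain ⟨u, hu0, hus⟩ : ∃ u : ℝ, 1 ≤ u ∧ |s| ≤ u := ⟨max 1 |s|, le_max_left _ _, le_max_right _ _⟩
  have hus' := abs_le.1 hus
  -- the left point `-4 + 4 / (u + 6)`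
  set a : ℝ := -4 + 4 / (u + 6) with ha
  have hu6 : 0 < u + 6 := by linarith
  have hq1 : 0 < 4 / (u + 6) := by positivity
  have hq2 : 4 / (u + 6) ≤ 4 / 7 := by
    apply div_le_div_of_nonneg_left (by norm_num) (by norm_num) (by linarith)
  have haI : a ∈ Ioo (-4 : ℝ) (-2) := ⟨by linarith, by linarith⟩
  have hga : gr a ≤ s := by
    refine (gr_split haI).2.trans ?_
    have e1 : a / (1 + a) ≤ 2 := by
      rw [div_le_iff_of_neg (by linarith)]; linarith
    have e2 : a / (2 + a) ≤ 3 := by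
      rw [div_le_iff_of_neg (by linarith)]; linarith
    have e3 : a / (4 + a) = 1 - (u + 6) := by
      have : 4 + a = 4 / (u + 6) := by rw [ha]; ring
      rw [this, ha]
      field_simp
      ring
    rw [e3]
    linarith
  -- the right point `-2 - 2 / (u + 3)`
  set b : ℝ := -2 - 2 / (u + 4) with hb
  have hu4 : 0 < u + 4 := by linarith
  have hq3 : 0 < 2 / (u + 4) := by positivity
  have hq4 : 2 / (u + 4) ≤ 2 / 5 := by
    apply div_le_div_of_nonneg_left (by norm_num) (by norm_num) (by linarith)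
  have hbI : b ∈ Ioo (-4 : ℝ) (-2) := ⟨by linarith, by linarith⟩
  have hgb : s ≤ gr b := by
    refine le_trans ?_ (gr_split hbI).1
    have e1 : 0 ≤ b / (1 + b) := (div_pos_of_neg_of_neg (by linarith) (by linarith)).le
    have e2 : b / (2 + b) = 1 + (u + 4) := by
      have : 2 + b = - (2 / (u + 4)) := by rw [hb]; ring
      rw [this, hb]
      field_simp
      ring
    have e3 : -3 ≤ b / (4 + b) := by
      rw [le_div_iff₀ (by linarith)]; linarith
    rw [e2]
    linarith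
  have hab : a ≤ b := by linarith
  have hsub : Icc a b ⊆ Ioo (-4) (-2) := fun x hx =>
    ⟨lt_of_lt_of_le haI.1 hx.1, lt_of_le_of_lt hx.2 hbI.2⟩
  obtain ⟨x, hx, hgx⟩ := intermediate_value_Icc hab (hcont.mono hsub) ⟨hga, hgb⟩
  refine ⟨x, hsub hx, ?_⟩
  unfold psi
  rw [hgx, hs, add_sub_cancel_right, mul_div_cancel_right₀ _ cB_pos.ne']

/-- on `(-1, ∞)` the map `psi` moves points to the left by a fixed amount -/
lemma psi_add_le {x : ℝ} (hx : -1 < x) : psi x + 1 / (4 * cB) ≤ x := by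
  have hN := NP_ofReal (ne_of_gt_neg_one hx)
  have hs := summable_gr (ne_of_gt_neg_one hx)
  have h1 := (hasSum_cA.add (hasSum_cB.mul_left x)).sub hs.hasSum
  have hterm : ∀ n : ℕ, 1 / (((2 : ℝ) ^ n) ^ 2 + 1) + x * ((2 : ℝ) ^ n / (((2 : ℝ) ^ n) ^ 2 + 1)) -
      x / (2 ^ n + x) = 2 ^ n * (1 + x ^ 2) / ((((2 : ℝ) ^ n) ^ 2 + 1) * (2 ^ n + x)) := by
    intro n
    have h2 : (2 : ℝ) ^ n + x ≠ 0 := ne_of_gt_neg_one hx n
    have h3 : (0 : ℝ) < ((2 : ℝ) ^ n) ^ 2 + 1 := by positivity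
    field_simp
    ring
  have hnn : ∀ n : ℕ, 0 ≤ 1 / (((2 : ℝ) ^ n) ^ 2 + 1) +
      x * ((2 : ℝ) ^ n / (((2 : ℝ) ^ n) ^ 2 + 1)) - x / (2 ^ n + x) := by
    intro n
    rw [hterm]
    have : (1 : ℝ) ≤ 2 ^ n := one_le_pow₀ (by norm_num)
    have : 0 < 2 ^ n + x := by linarith
    positivity
  have h4 := h1.summable.le_tsum 0 fun n _ => hnn n
  rw [h1.tsum_eq] at h4
  have h5 : (1 : ℝ) / 4 ≤ 1 / (((2 : ℝ) ^ 0) ^ 2 + 1) +
      x * ((2 : ℝ) ^ 0 / (((2 : ℝ) ^ 0) ^ 2 + 1)) - x / (2 ^ 0 + x) := by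
    rw [hterm, pow_zero, le_div_iff₀ (by nlinarith)]
    nlinarith [sq_nonneg (x - 1 / 4)]
  have h6 : gr x = ∑' n : ℕ, x / (2 ^ n + x) := rfl
  have hB := cB_pos
  unfold psi
  rw [h6, div_add_div _ _ hB.ne' (by positivity), div_le_iff₀ (by positivity)]
  nlinarith

/-! ### growth and contraction -/

lemma tendsto_phi_re {α : Type*} {l : Filter α} {u : α → ℂ} (hN : ∀ᶠ a in l, NP (u a))
    (h0 : ∀ᶠ a in l, 0 ≤ (u a).re) (h : Tendsto (fun a => ‖u a‖) l atTop) :
    Tendsto (fun a => (phi (u a)).re) l atTop := by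
  rw [Filter.tendsto_atTop]
  intro b
  obtain ⟨N, hNb⟩ := exists_nat_ge (2 * (b * cB + cA))
  filter_upwards [hN, h0, h.eventually_ge_atTop (2 ^ N)] with a ha1 ha2 ha3
  have h1 := g_re_ge ha1 ha2 ha3
  rw [phi_re, le_div_iff₀ cB_pos]
  linarith

lemma iter_im_pos {z : ℂ} (hz : 0 < z.im) (n : ℕ) : 0 < (phi^[n] z).im := by
  induction n with
  | zero => exact hz
  | succ n ih => rw [Function.iterate_succ_apply']; exact phi_im_pos ih

lemma tendsto_iter_re (n : ℕ) :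
    Tendsto (fun y : ℝ => (phi^[n + 1] (y * I)).re) atTop atTop := by
  have hpos : ∀ᶠ y : ℝ in atTop, 0 < ((y : ℂ) * I).im := by
    filter_upwards [eventually_gt_atTop 0] with y hy
    simpa using hy
  induction n with
  | zero =>
    refine tendsto_phi_re (u := fun y : ℝ => (y : ℂ) * I) ?_ ?_ ?_
    · filter_upwards [hpos] with y hy using NP_of_im hy
    · exact Filter.Eventually.of_forall fun y => by simp
    · have : (fun y : ℝ => ‖(y : ℂ) * I‖) = fun y : ℝ => |y| := by funext y; simp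
      rw [this]
      exact tendsto_abs_atTop_atTop
  | succ n ih =>
    have e : (fun y : ℝ => (phi^[n + 1 + 1] (y * I)).re) =
        fun y : ℝ => (phi (phi^[n + 1] (y * I))).re := by
      funext y
      rw [Function.iterate_succ_apply']
    rw [e]
    refine tendsto_phi_re (u := fun y : ℝ => phi^[n + 1] (y * I)) ?_ ?_ ?_
    · filter_upwards [hpos] with y hy using NP_of_im (iter_im_pos hy _)
    · exact ih.eventually_ge_atTop 0
    · exact tendsto_atTop_mono (fun y => Complex.re_le_norm _) ih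

/-- contraction factor -/
def Kc (η : ℝ) : ℝ := (∑' n : ℕ, 2 ^ n / (2 ^ n + η) ^ 2) / cB

lemma Kc_term {η : ℝ} (hη : 0 ≤ η) (n : ℕ) : (2 : ℝ) ^ n / (2 ^ n + η) ^ 2 ≤ (1 / 2) ^ n := by
  have hp : (0 : ℝ) < 2 ^ n := by positivity
  rw [one_div, inv_pow, ← one_div, div_le_div_iff₀ (by positivity) hp]
  nlinarith [mul_nonneg hp.le hη, sq_nonneg η]

lemma Kc_summable {η : ℝ} (hη : 0 ≤ η) : Summable fun n : ℕ => (2 : ℝ) ^ n / (2 ^ n + η) ^ 2 :=
  Summable.of_nonneg_of_le (fun n => by positivity) (Kc_term hη) summable_geometric_two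

lemma tendsto_Kc : Tendsto Kc atTop (𝓝 0) := by
  have h1 : Tendsto (fun η : ℝ => ∑' n : ℕ, (2 : ℝ) ^ n / (2 ^ n + η) ^ 2) atTop
      (𝓝 (∑' _ : ℕ, (0 : ℝ))) := by
    refine tendsto_tsum_of_dominated_convergence (bound := fun n : ℕ => (1 / 2 : ℝ) ^ n)
      summable_geometric_two (fun n => ?_) ?_
    · refine Tendsto.div_atTop tendsto_const_nhds ?_
      refine (tendsto_pow_atTop two_ne_zero).comp ?_
      exact tendsto_atTop_add_const_left _ _ tendsto_id
    · filter_upwards [eventually_ge_atTop 0] with η hη n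
      rw [Real.norm_eq_abs, abs_of_nonneg (by positivity)]
      exact Kc_term hη n
  rw [tsum_zero] at h1
  have h2 := h1.div_const cB
  rwa [zero_div] at h2

lemma phi_im_le {z : ℂ} {η : ℝ} (hη : 0 ≤ η) (h : η ≤ z.re) (hz : 0 < z.im) :
    (phi z).im ≤ z.im * Kc η := by
  have hN := NP_of_im hz
  rw [phi_im, g_im hN]
  unfold Kc
  rw [← mul_div_assoc, ← tsum_mul_left]
  have hB := cB_pos
  refine div_le_div_of_nonneg_right ?_ hB.le
  refine Summable.tsum_le_tsum (fun n => ?_) (summable_im hN) ((Kc_summable hη).mul_left _)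
  have hp : (0 : ℝ) < 2 ^ n := by positivity
  rw [← mul_div_assoc, mul_comm z.im]
  have h1 : (2 ^ n + η) ^ 2 ≤ (2 ^ n + z.re) ^ 2 + z.im ^ 2 := by
    nlinarith [sq_nonneg z.im, mul_nonneg hp.le (sub_nonneg.2 h)]
  exact div_le_div_of_nonneg_left (by positivity) (by positivity) h1

/-- the bound for the imaginary part on the imaginary axis -/
def cM : ℝ := 4 / cB

lemma phi_im_axis {y : ℝ} (hy : 0 < y) : (phi (y * I)).im ≤ cM := by
  have hz : 0 < ((y : ℂ) * I).im := by simpa using hy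
  have hN := NP_of_im hz
  rw [phi_im, g_im hN]
  unfold cM
  have hB := cB_pos
  gcongr
  have hre : ((y : ℂ) * I).re = 0 := by simp
  have him : ((y : ℂ) * I).im = y := by simp
  rw [hre, him]
  refine Real.tsum_le_of_sum_range_le (fun n => by positivity) fun N => ?_
  have h1 : ∀ n ∈ Finset.range N, (2 : ℝ) ^ n * y / ((2 ^ n + 0) ^ 2 + y ^ 2) ≤
      4 * (2 ^ (n + 1) / (2 ^ (n + 1) + y) - 2 ^ n / (2 ^ n + y)) := by
    intro n _
    have hp : (0 : ℝ) < 2 ^ n := by positivity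
    set p : ℝ := 2 ^ n with hpdef
    have e : (2 : ℝ) ^ (n + 1) = 2 * p := by rw [pow_succ]; ring
    rw [e, add_zero]
    have e2 : 2 * p / (2 * p + y) - p / (p + y) = p * y / ((2 * p + y) * (p + y)) := by
      field_simp
      ring
    rw [e2, ← mul_div_assoc, div_le_div_iff₀ (by positivity) (by positivity)]
    have h2 : (2 * p + y) * (p + y) ≤ 4 * (p ^ 2 + y ^ 2) := by nlinarith [sq_nonneg (p - y)]
    calc p * y * ((2 * p + y) * (p + y)) ≤ p * y * (4 * (p ^ 2 + y ^ 2)) := by gcongr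
      _ = 4 * (p * y) * (p ^ 2 + y ^ 2) := by ring
  refine (Finset.sum_le_sum h1).trans ?_
  rw [← Finset.mul_sum, Finset.sum_range_sub (fun n => (2 : ℝ) ^ n / (2 ^ n + y))]
  have h3 : (2 : ℝ) ^ N / (2 ^ N + y) ≤ 1 := by
    rw [div_le_one (by positivity)]; linarith
  have h4 : 0 ≤ (2 : ℝ) ^ 0 / (2 ^ 0 + y) := by positivity
  linarith

lemma continuousAt_iter {z : ℂ} (hz : 0 < z.im) (n : ℕ) : ContinuousAt (phi^[n]) z := by
  induction n with
  | zero => exact continuousAt_id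
  | succ n ih =>
    rw [Function.iterate_succ']
    exact ContinuousAt.comp (differentiableAt_phi (NP_of_im (iter_im_pos hz n))).continuousAt ih

lemma continuousOn_path (n : ℕ) : ContinuousOn (fun y : ℝ => (phi^[n] (y * I)).re) (Ioi 0) := by
  intro y hy
  have hz : 0 < ((y : ℂ) * I).im := by simpa using hy
  refine ContinuousAt.continuousWithinAt ?_
  have h1 : ContinuousAt (fun y : ℝ => phi^[n] (y * I)) y :=
    ContinuousAt.comp (f := fun y : ℝ => (y : ℂ) * I) (g := phi^[n]) (continuousAt_iter hz n)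
      (by fun_prop)
  exact ContinuousAt.comp (f := fun y : ℝ => phi^[n] (y * I)) Complex.continuous_re.continuousAt h1

/-- the orbit of a suitable point on the imaginary axis comes close to a given large real
number -/
lemma hit {η : ℝ} (hη : cM ≤ η) (hK : Kc η ≤ 1 / 2) {Y : ℝ} (hY : 0 < Y) {n : ℕ}
    (hN : ∃ k ≤ n, (phi^[k + 1] (Y * I)).re < η) :
    ∃ y, Y ≤ y ∧ (phi^[n + 1] (y * I)).re = η ∧ (phi^[n + 1] (y * I)).im ≤ cM * (1 / 2) ^ n := by
  have hM0 : 0 < cM := div_pos (by norm_num) cB_pos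
  have hne : (Finset.range (n + 1)).Nonempty := ⟨0, by simp⟩
  set m : ℝ → ℝ := fun y => (Finset.range (n + 1)).inf' hne fun k => (phi^[k + 1] (y * I)).re
    with hm
  have hmc : ContinuousOn m (Ici Y) := by
    refine ContinuousOn.finset_inf'_apply hne fun k _ => ?_
    exact (continuousOn_path (k + 1)).mono fun y hy => lt_of_lt_of_le hY hy
  have hm1 : m Y < η := by
    obtain ⟨k, hk, hlt⟩ := hN
    rw [hm]
    simp only
    rw [Finset.inf'_lt_iff]
    exact ⟨k, Finset.mem_range.2 (Nat.lt_succ_of_le hk), hlt⟩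
  obtain ⟨y1, hy1, hm2⟩ : ∃ y1, Y ≤ y1 ∧ η ≤ m y1 := by
    have h1 : ∀ᶠ y : ℝ in atTop, ∀ k ∈ Finset.range (n + 1), η ≤ (phi^[k + 1] (y * I)).re := by
      rw [Filter.eventually_all_finset]
      intro k _
      exact (tendsto_iter_re k).eventually_ge_atTop η
    obtain ⟨y1, h2, h3⟩ := (h1.and (eventually_ge_atTop Y)).exists
    refine ⟨y1, h3, ?_⟩
    rw [hm]
    simp only
    rw [Finset.le_inf'_iff]
    exact h2
  obtain ⟨y, hy, hmy⟩ := intermediate_value_Icc hy1 (hmc.mono Icc_subset_Ici_self) ⟨hm1.le, hm2⟩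
  have hyY : Y ≤ y := hy.1
  have hy0 : 0 < y := lt_of_lt_of_le hY hyY
  have hz : 0 < ((y : ℂ) * I).im := by simpa using hy0
  have hge : ∀ k, k ≤ n → η ≤ (phi^[k + 1] (y * I)).re := by
    intro k hk
    have h1 : η ≤ m y := hmy.ge
    rw [hm] at h1
    simp only at h1
    rw [Finset.le_inf'_iff] at h1
    exact h1 k (Finset.mem_range.2 (Nat.lt_succ_of_le hk))
  have him : ∀ k, k ≤ n → (phi^[k + 1] (y * I)).im ≤ cM * (1 / 2) ^ k := by
    intro k
    induction k with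
    | zero =>
      intro _
      rw [pow_zero, mul_one]
      exact phi_im_axis hy0
    | succ k ih =>
      intro hk
      have h1 := ih (by omega)
      rw [Function.iterate_succ_apply']
      have h2 := phi_im_le (hM0.le.trans hη) (hge k (by omega)) (iter_im_pos hz (k + 1))
      refine h2.trans ?_
      have h3 := (iter_im_pos hz (k + 1)).le
      calc (phi^[k + 1] (y * I)).im * Kc η ≤ (phi^[k + 1] (y * I)).im * (1 / 2) := by gcongr
        _ ≤ cM * (1 / 2) ^ k * (1 / 2) := by gcongr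
        _ = cM * (1 / 2) ^ (k + 1) := by ring
  obtain ⟨k, hk, hkeq⟩ := Finset.exists_mem_eq_inf' hne fun k => (phi^[k + 1] (y * I)).re
  have hkn : k ≤ n := Nat.lt_succ_iff.1 (Finset.mem_range.1 hk)
  have hkη : (phi^[k + 1] (y * I)).re = η := by
    rw [← hkeq]; exact hmy
  have hkn' : k = n := by
    by_contra hne'
    have hlt : k + 1 ≤ n := by omega
    have h1 := hge (k + 1) hlt
    rw [Function.iterate_succ_apply'] at h1
    have h2 := phi_re_lt (NP_of_im (iter_im_pos hz (k + 1))) (by rw [hkη]; linarith) (by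
      rw [hkη]
      have h3 := him k hkn
      have h4 : cM * (1 / 2) ^ k ≤ cM := mul_le_of_le_one_right hM0.le (pow_le_one₀ (by norm_num)
        (by norm_num))
      exact pow_le_pow_left₀ (iter_im_pos hz (k + 1)).le (by linarith) 2)
    rw [hkη] at h2
    linarith
  subst hkn'
  exact ⟨y, hyY, hkη, him k le_rfl⟩

/-! ### long boundary orbits with large variation -/

/-- the Cayley transform -/
def cay (z : ℂ) : ℂ := (z - I) / (z + I)

lemma ofReal_add_I_ne (x : ℝ) : (x : ℂ) + I ≠ 0 := by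
  intro h
  have := congrArg Complex.im h
  simp at this

lemma norm_ofReal_add_I_sq (x : ℝ) : ‖(x : ℂ) + I‖ ^ 2 = 1 + x ^ 2 := by
  rw [Complex.sq_norm, normSq_apply]
  simp
  ring

lemma dist_cay {x x' : ℝ} (h1 : x ∈ Ioo (-4 : ℝ) (-2)) (h2 : -1 < x') :
    1 / 3 ≤ ‖cay x - cay x'‖ := by
  obtain ⟨ha, hb⟩ := h1
  have hx := ofReal_add_I_ne x
  have hx' := ofReal_add_I_ne x'
  have e : cay x - cay x' = 2 * I * ((x : ℂ) - x') / (((x : ℂ) + I) * ((x' : ℂ) + I)) := by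
    unfold cay
    field_simp
    ring
  have e2 : ‖cay x - cay x'‖ ^ 2 = 4 * (x - x') ^ 2 / ((1 + x ^ 2) * (1 + x' ^ 2)) := by
    rw [e, norm_div, div_pow, norm_mul, norm_mul, norm_mul, mul_pow, mul_pow, mul_pow,
      norm_ofReal_add_I_sq, norm_ofReal_add_I_sq, Complex.norm_I, Complex.norm_ofNat,
      ← Complex.ofReal_sub, Complex.norm_real, Real.norm_eq_abs, sq_abs]
    norm_num
  have e3 : (1 / 3 : ℝ) ^ 2 ≤ ‖cay x - cay x'‖ ^ 2 := by
    rw [e2, le_div_iff₀ (by positivity)]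
    have h3 : 1 + x ^ 2 ≤ 17 := by nlinarith
    have h4 : 1 + x' ^ 2 ≤ 2 * (x - x') ^ 2 := by nlinarith
    calc (1 / 3 : ℝ) ^ 2 * ((1 + x ^ 2) * (1 + x' ^ 2)) ≤ (1 / 3 : ℝ) ^ 2 * (17 * (2 * (x - x') ^ 2)) := by
          gcongr
      _ ≤ 4 * (x - x') ^ 2 := by nlinarith [sq_nonneg (x - x')]
  exact le_of_sq_le_sq e3 (norm_nonneg _)

/-- a real point with an orbit of length `T` avoiding the poles and of variation at least `S` -/
def Good (T : ℕ) (S : ℝ) (x : ℝ) : Prop :=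
  (∀ j < T, NP ((psi^[j] x : ℝ) : ℂ)) ∧
    S ≤ ∑ j ∈ Finset.range T, ‖cay (psi^[j] x : ℝ) - cay (psi^[j + 1] x : ℝ)‖

lemma Good.pull {T : ℕ} {S y : ℝ} (h : Good T S (psi y)) (hy : NP (y : ℂ)) :
    Good (T + 1) (S + ‖cay y - cay (psi y : ℝ)‖) y := by
  constructor
  · intro j hj
    match j with
    | 0 => exact hy
    | j + 1 =>
      rw [Function.iterate_succ_apply]
      exact h.1 j (by omega)
  · rw [Finset.sum_range_succ']
    simp only [Function.iterate_succ_apply, Function.iterate_zero, id]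
    have h2 := h.2
    simp only [Function.iterate_succ_apply] at h2
    linarith

lemma exists_good (L : ℕ) : ∃ T x, -1 < x ∧ Good T (L * (1 / 3)) x := by
  induction L with
  | zero =>
    refine ⟨0, 0, by norm_num, fun j hj => absurd hj (Nat.not_lt_zero j), ?_⟩
    simp
  | succ L ih =>
    obtain ⟨T, x, hx, hg⟩ := ih
    obtain ⟨x1, hx1, h1⟩ := exists_psi_ioo x
    obtain ⟨x2, hx2, h2⟩ := exists_psi_ioi x1
    subst h1
    have hg1 := hg.pull (NP_ofReal (ne_of_mem_Ioo hx1))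
    subst h2
    have hg2 := hg1.pull (NP_ofReal (ne_of_gt_neg_one hx2))
    refine ⟨T + 1 + 1, x2, hx2, hg2.1, le_trans ?_ hg2.2⟩
    have h3 := dist_cay hx1 hx
    have h4 := norm_nonneg (cay x2 - cay (psi x2 : ℝ))
    push_cast
    linarith

lemma Good.mono {T : ℕ} {S S' x : ℝ} (h : Good T S x) (hS : S' ≤ S) : Good T S' x :=
  ⟨h.1, hS.trans h.2⟩

lemma exists_good_large (S R : ℝ) : ∃ T η, R ≤ η ∧ Good T S η := by
  obtain ⟨L, hL⟩ := exists_nat_ge (3 * S)
  have hkey : ∀ k : ℕ, ∃ T η, -1 + k * (1 / (4 * cB)) < η ∧ Good T S η := by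
    intro k
    induction k with
    | zero =>
      obtain ⟨T, x, hx, hg⟩ := exists_good L
      refine ⟨T, x, by simpa using hx, hg.mono (by linarith)⟩
    | succ k ih =>
      obtain ⟨T, x, hx, hg⟩ := ih
      obtain ⟨y, hy, hyx⟩ := exists_psi_ioi x
      subst hyx
      have h1 := psi_add_le hy
      refine ⟨T + 1, y, ?_, (hg.pull (NP_ofReal (ne_of_gt_neg_one hy))).mono ?_⟩
      · push_cast
        linarith
      · have := norm_nonneg (cay y - cay (psi y : ℝ))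
        linarith
  have hB := cB_pos
  obtain ⟨k, hk⟩ := exists_nat_ge ((R + 1) * (4 * cB))
  obtain ⟨T, η, h1, h2⟩ := hkey k
  refine ⟨T, η, ?_, h2⟩
  have h3 : R + 1 ≤ k * (1 / (4 * cB)) := by
    rw [mul_one_div, le_div_iff₀ (by positivity)]
    exact hk
  linarith

lemma phi_iter_ofReal (x : ℝ) (j : ℕ) : phi^[j] (x : ℂ) = ((psi^[j] x : ℝ) : ℂ) := by
  induction j with
  | zero => rfl
  | succ j ih => rw [Function.iterate_succ_apply', ih, phi_ofReal, Function.iterate_succ_apply']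

lemma continuousAt_iter_ofReal {T : ℕ} {S η : ℝ} (h : Good T S η) {j : ℕ} (hj : j ≤ T) :
    ContinuousAt (phi^[j]) (η : ℂ) := by
  induction j with
  | zero => exact continuousAt_id
  | succ j ih =>
    rw [Function.iterate_succ']
    refine ContinuousAt.comp ?_ (ih (by omega))
    rw [phi_iter_ofReal]
    exact (differentiableAt_phi (h.1 j (by omega))).continuousAt

lemma continuousAt_cay {z : ℂ} (h : z + I ≠ 0) : ContinuousAt cay z := by
  unfold cay
  exact ContinuousAt.div (by fun_prop) (by fun_prop) h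

/-- the total variation of the orbits of points of the imaginary axis is unbounded -/
theorem variation (hDW : ∀ y : ℝ, 0 < y → Tendsto (fun n => phi^[n] (y * I)) atTop (𝓝 I))
    (S Y : ℝ) : ∃ y, Y ≤ y ∧ 1 ≤ y ∧ ∃ K : ℕ,
      S ≤ ∑ k ∈ Finset.range K, ‖cay (phi^[k + 1] (y * I)) - cay (phi^[k + 2] (y * I))‖ := by
  -- a large real point
  obtain ⟨R, hR⟩ : ∃ R : ℝ, ∀ η, R ≤ η → Kc η ≤ 1 / 2 := by
    have h1 := tendsto_Kc.eventually_le_const (show (0 : ℝ) < 1 / 2 by norm_num)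
    rw [eventually_atTop] at h1
    exact h1
  obtain ⟨T, η, hη, hg⟩ := exists_good_large (S + 1) (max R cM)
  have hηR : R ≤ η := (le_max_left _ _).trans hη
  have hηM : cM ≤ η := (le_max_right _ _).trans hη
  have hM0 : 0 < cM := div_pos (by norm_num) cB_pos
  set Y' : ℝ := max Y 1 with hY'
  have hY0 : 0 < Y' := lt_of_lt_of_le one_pos (le_max_right _ _)
  obtain ⟨N, hN⟩ : ∃ N, (phi^[N + 1] (Y' * I)).re < η := by
    have h1 := ((Complex.continuous_re.tendsto I).comp (hDW Y' hY0))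
    rw [Complex.I_re] at h1
    have h2 := h1.eventually_lt_const (lt_of_lt_of_le hM0 hηM)
    rw [eventually_atTop] at h2
    obtain ⟨N, hN⟩ := h2
    exact ⟨N, hN (N + 1) (by omega)⟩
  have hhit : ∀ n, ∃ y, N ≤ n → Y' ≤ y ∧ (phi^[n + 1] (y * I)).re = η ∧
      (phi^[n + 1] (y * I)).im ≤ cM * (1 / 2) ^ n := by
    intro n
    by_cases hn : N ≤ n
    · obtain ⟨y, hy⟩ := hit hηM (hR η hηR) hY0 (n := n) ⟨N, hn, hN⟩
      exact ⟨y, fun _ => hy⟩
    · exact ⟨0, fun h => absurd h hn⟩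
  choose y hy using hhit
  -- the orbits come close to `η`
  have hlim : Tendsto (fun n => phi^[n + 1] (y n * I)) atTop (𝓝 (η : ℂ)) := by
    have hre : Tendsto (fun n => (phi^[n + 1] (y n * I)).re) atTop (𝓝 η) := by
      refine tendsto_const_nhds.congr' ?_
      filter_upwards [eventually_ge_atTop N] with n hn
      exact ((hy n hn).2.1).symm
    have him : Tendsto (fun n => (phi^[n + 1] (y n * I)).im) atTop (𝓝 0) := by
      have hup : Tendsto (fun n : ℕ => cM * (1 / 2 : ℝ) ^ n) atTop (𝓝 0) := by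
        have := (tendsto_pow_atTop_nhds_zero_of_lt_one (r := (1 / 2 : ℝ)) (by norm_num)
          (by norm_num)).const_mul cM
        rwa [mul_zero] at this
      refine tendsto_of_tendsto_of_tendsto_of_le_of_le' tendsto_const_nhds hup ?_ ?_
      · filter_upwards [eventually_ge_atTop N] with n hn
        refine (iter_im_pos ?_ _).le
        have := hY0.trans_le (hy n hn).1
        simpa using this
      · filter_upwards [eventually_ge_atTop N] with n hn
        exact (hy n hn).2.2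
    have h1 : Tendsto (fun n => (((phi^[n + 1] (y n * I)).re : ℝ) : ℂ) +
        (((phi^[n + 1] (y n * I)).im : ℝ) : ℂ) * I) atTop (𝓝 ((η : ℂ) + ((0 : ℝ) : ℂ) * I)) :=
      ((Complex.continuous_ofReal.tendsto _).comp hre).add
        (((Complex.continuous_ofReal.tendsto _).comp him).mul_const I)
    simpa using h1
  have hsum : Tendsto (fun n => ∑ j ∈ Finset.range T, ‖cay (phi^[j] (phi^[n + 1] (y n * I))) -
      cay (phi^[j + 1] (phi^[n + 1] (y n * I)))‖) atTop
      (𝓝 (∑ j ∈ Finset.range T, ‖cay (psi^[j] η : ℝ) - cay (psi^[j + 1] η : ℝ)‖)) := by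
    refine tendsto_finsetSum _ fun j hj => ?_
    have hjT := Finset.mem_range.1 hj
    have h1 : ∀ i ≤ T, Tendsto (fun n => cay (phi^[i] (phi^[n + 1] (y n * I)))) atTop
        (𝓝 (cay (psi^[i] η : ℝ))) := by
      intro i hi
      have h2 := (continuousAt_iter_ofReal hg hi).tendsto.comp hlim
      rw [phi_iter_ofReal] at h2
      exact (continuousAt_cay (ofReal_add_I_ne _)).tendsto.comp h2
    exact ((h1 j hjT.le).sub (h1 (j + 1) hjT)).norm
  have hev := hsum.eventually_const_lt (lt_of_lt_of_le (lt_add_one S) hg.2)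
  obtain ⟨n, hn, hnN⟩ := (hev.and (eventually_ge_atTop N)).exists
  have hyn := (hy n hnN).1
  refine ⟨y n, (le_max_left _ _).trans hyn, (le_max_right _ _).trans hyn, n + T, ?_⟩
  rw [Finset.sum_range_add]
  refine hn.le.trans ?_
  have h5 : ∀ j, phi^[j] (phi^[n + 1] (y n * I)) = phi^[n + j + 1] (y n * I) := by
    intro j
    rw [← Function.iterate_add_apply]
    congr 1
    omega
  have h6 : ∀ j, phi^[j + 1] (phi^[n + 1] (y n * I)) = phi^[n + j + 2] (y n * I) := by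
    intro j
    rw [← Function.iterate_add_apply]
    congr 1
    omega
  simp only [h5]
  exact le_add_of_nonneg_left (Finset.sum_nonneg fun _ _ => norm_nonneg _)

end

end Pool.Agent.InnerSeries
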